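import Pool.Agent.Helper65.HCS.Goals
import Pool.Agent.Helper78.Mpc.MMain

/-!
# Project HCS, packet CODE: the codes of the functions of a decompressor
-/

namespace Pool.Agent.Helper12.HCS

open Pool.Agent.Helper65.LinSpace Pool.Agent.Helper78.Mpc Pool.Agent.Helper28.Ram
open Pool.Agent.Helper81.Sus2 (Decomp CodE)

/-- Packet CODE. -/
theorem code : Pool.Agent.Helper65.HCS.CODE_stmt := by
  intro E
  obtain ⟨eD, cD, hD⟩ := fnN_spec E.addr_lin
  obtain ⟨eX, cX, hX⟩ := fnN_spec E.next_lin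
  refine ⟨eD, eX, (cD + cX) * 2 + 4, ?_⟩
  intro P eqD eqX hΛ hβ hB
  have hgood : ∀ (f : List Bool → List Bool) (e c' : ℕ),
      c' ≤ cD + cX →
      (∀ (w : List Bool) (S Λ β B : ℕ), c' * (S + w.length + 2) ≤ Λ →
        c' + Λ + S + w.length + 1 ≤ β → 2 ^ (S + 1) ≤ B →
        fnN e S Λ β B (num w) = if (f w).length ≤ S then num (f w) else 0) →
      ∀ u : List Bool, u.length ≤ 2 * P.Z + 8 →
        fnN e P.Z P.Λ P.β P.M (num u) = if (f u).length ≤ P.Z then num (f u) else 0 := by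
    intro f e c' hc' hf u hu
    have pZ : 2 ^ (P.Z + 1) ≤ P.M :=
      le_trans (Nat.pow_le_pow_right (by norm_num) (by omega)) hB
    refine hf u _ _ _ _ ?_ ?_ pZ
    · refine le_trans ?_ hΛ
      calc c' * (P.Z + u.length + 2)
          ≤ (cD + cX) * (2 * (8 * P.Z + 8)) :=
            Nat.mul_le_mul hc' (by omega)
        _ = (cD + cX) * 2 * (8 * P.Z + 8) := by ring
        _ ≤ _ := Nat.mul_le_mul_right _ (Nat.le_add_right _ _)
    · omega
  have gD := hgood E.addr eD cD (by omega) hD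
  have gX := hgood E.next eX cX (by omega) hX
  refine ⟨?_, ?_⟩
  · intro σ hσ
    change σ.length ≤ P.Z at hσ
    change fnN P.eD P.Z P.Λ P.β P.M (num σ) = if (E.addr σ).length ≤ P.Z then _ else 0
    rw [eqD]
    exact gD σ (by omega)
  · intro σ u hσ hu
    change σ.length ≤ P.Z at hσ
    change fnN P.eX P.Z P.Λ P.β P.M (catN (sdN (num σ)) (num u)) =
      if (E.next (sd σ ++ u)).length ≤ P.Z then _ else 0
    rw [eqX, sdN_num, catN_num]
    refine gX _ ?_
    rw [List.length_append, length_sd]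
    omega

end Pool.Agent.Helper12.HCS
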